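import Pool.Agent.H67.LW.Spec
import Pool.Agent.H67.LW.Base

set_option autoImplicit false

/-! Part CN of the swarm LW: connectivity in the torso. -/

namespace LW

open Finset
open Pool.Agent.Helper36.BN (inc cyc bdry)

theorem CN_thm (hLM : S_LM) (hOW : S_OW) : S_CN := by
  classical
  intro V _ _ G k Valid X C P hDec hC hP
  obtain ⟨h1, -, h3, h4, -, h6⟩ := hOW V G k Valid X C P hDec hC hP
  let π : V → V ⊕ Finset V := fun x =>
    if h : ∃ D ∈ Hang G X P, x ∈ D then Sum.inr h.choose else Sum.inl x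
  have hπin : ∀ x, ∀ D ∈ Hang G X P, x ∈ D → π x = Sum.inr D := by
    intro x D hD hx
    have h : ∃ D ∈ Hang G X P, x ∈ D := ⟨D, hD, hx⟩
    have h' : π x = Sum.inr h.choose := dif_pos h
    rw [h']
    congr 1
    by_contra hne
    exact Finset.disjoint_left.1 (h4 _ h.choose_spec.1 D hD hne).1 h.choose_spec.2 hx
  have hπout : ∀ x, (∀ D ∈ Hang G X P, x ∉ D) → π x = Sum.inl x := by
    intro x hx
    refine dif_neg ?_
    rintro ⟨D, hD, hxD⟩
    exact hx D hD hxD
  have hπX : ∀ E ∈ P, ∀ x ∈ X E, π x = Sum.inl x := by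
    intro E hE x hx
    refine hπout x fun D hD hxD => ?_
    exact Finset.disjoint_left.1 (h3 E hE D hD) hx hxD
  have hπne : ∀ x, ∀ D, π x = Sum.inr D → x ∈ D := by
    intro x D hx
    by_cases h : ∃ D ∈ Hang G X P, x ∈ D
    · have h' : π x = Sum.inr h.choose := dif_pos h
      rw [h'] at hx
      have h5 : h.choose = D := Sum.inr_injective hx
      rw [← h5]
      exact h.choose_spec.2
    · have h' : π x = Sum.inl x := dif_neg h
      rw [h'] at hx
      exact absurd hx (by simp)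
  -- the steps
  have hhalf : ∀ u v, G.Adj u v → ∀ D ∈ Hang G X P, u ∈ D →
      π u = π v ∨ (mg (ts G X P) (tt G X P)).Adj (π u) (π v) := by
    intro u v huv D hD hu
    by_cases hv : v ∈ D
    · left
      rw [hπin u D hD hu, hπin v D hD hv]
    · right
      obtain ⟨E, hE, -, hsub⟩ := (h6 D hD).2.2.2.2.2
      have hvn : v ∈ nbr G D := mem_nbr.2 ⟨hv, u, hu, huv⟩
      rw [hπin u D hD hu, hπX E hE v (hsub hvn)]
      refine ⟨by simp, Sum.inr ⟨(D, v), hD, hvn⟩, Or.inl ⟨rfl, rfl⟩⟩
  have hstep : ∀ u v, (gr G C).Adj u v →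
      π u = π v ∨ (mg (ts G X P) (tt G X P)).Adj (π u) (π v) := by
    intro u v huv
    rcases h1 u v huv with ⟨E, hE, hu, hv, huE⟩ | ⟨D, hD, hu | hv⟩
    · right
      rw [hπX E hE u hu, hπX E hE v hv]
      have hadj : G.Adj u v := (gr_adj.1 huv).1
      obtain ⟨e, he⟩ := exists_edge hadj
      have hreal : Real G X P e := by
        refine ⟨E, hE, ?_⟩
        rcases he with ⟨h7, h8⟩ | ⟨h7, h8⟩
        · rw [h7, h8]
          exact ⟨hu, hv, huE⟩
        · rw [h7, h8]
          exact ⟨hv, hu, huE.symm⟩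
      refine ⟨fun h => hadj.ne (Sum.inl_injective h), Sum.inl ⟨e, hreal⟩, ?_⟩
      rcases he with ⟨h7, h8⟩ | ⟨h7, h8⟩
      · exact Or.inl ⟨congrArg Sum.inl h7, congrArg Sum.inl h8⟩
      · exact Or.inr ⟨congrArg Sum.inl h7, congrArg Sum.inl h8⟩
    · exact hhalf u v (gr_adj.1 huv).1 D hD hu
    · rcases hhalf v u (gr_adj.1 huv).1.symm D hD hv with h | h
      · exact Or.inl h.symm
      · exact Or.inr h.symm
  have hwalk : ∀ (A : Finset V) (B : Finset (V ⊕ Finset V)), (∀ x ∈ A, π x ∈ B) → ∀ u v,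
      Lk (gr G C) A u v → Lk (mg (ts G X P) (tt G X P)) B (π u) (π v) := by
    intro A B hAB u v huv
    refine huv.induct (p := fun x => Lk (mg (ts G X P) (tt G X P)) B (π u) (π x)) ?_ ?_
    · exact Lk.refl (hAB u huv.left)
    · intro x _ y hy hxy hp
      rcases hstep x y hxy with h | h
      · rw [← h]
        exact hp
      · exact hp.tail h (hAB y hy)
  have hπnbr : ∀ a ∈ nbr G C, π a = Sum.inl a := fun a ha =>
    hπX C hP.top a (hDec.sub C hC ha)
  have hLM5 := (hLM V G k Valid X hDec).2.2.2.2 C hC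
  constructor
  · intro a ha b hb
    have h := hwalk univ univ (fun _ _ => mem_univ _) a b
      (hLM5 a (mem_union_right _ ha) b (mem_union_right _ hb))
    rwa [hπnbr a ha, hπnbr b hb] at h
  · intro D hD a ha b hb hab
    have h := hwalk (univ \ D) (univ \ {Sum.inr D}) (fun x hx => by
      rw [mem_sdiff] at hx ⊢
      refine ⟨mem_univ _, ?_⟩
      rw [mem_singleton]
      intro h
      exact hx.2 (hπne x D h)) a b hab
    rwa [hπnbr a ha, hπnbr b hb] at h

end LW
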