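import Pool.Agent.H67.LW.Spec
import Pool.Agent.H67.LW.Base

set_option autoImplicit false

/-! Part GEN of the swarm LW: from the components to the whole graph. -/

namespace LW

open Finset
open Pool.Agent.Helper36.BN (inc cyc bdry mem_cyc)

theorem GEN_thm : S_GEN := by
  classical
  intro V _ _ G _ _ l hSol
  have key : ∀ D : {D : Finset V // IsComp G univ D}, ∃ (I : Type) (_ : Fintype I)
      (c : I → G.edgeSet → ZMod 2), (∀ i, c i ∈ cyc (gs (G := G)) gt (ed G D.1)) ∧
      cyc (gs (G := G)) gt (ed G D.1) ≤ Submodule.span (ZMod 2) (Set.range c) ∧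
      ∀ e, Nat.card {i // c i e ≠ 0} ≤ l := by
    intro D
    obtain ⟨I, hI, c, J, h1, h2, -, h4⟩ := hSol D.1 D.2 Empty (fun r => r.elim) (fun r => r.elim)
      (fun r => r.elim) (by simp)
    refine ⟨I, hI, c, h1, h2, fun e => ?_⟩
    exact le_trans (Nat.le_add_right _ _) (h4 e)
  choose I hI c hc hspan hload using key
  have hdisj : ∀ (D D' : {D : Finset V // IsComp G univ D}) (v : V), v ∈ D.1 → v ∈ D'.1 →
      D = D' := fun D D' v hv hv' => Subtype.ext (D.2.eq_of_mem D'.2 hv hv')
  -- both ends of an edge are in the same component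
  have hends : ∀ (D : {D : Finset V // IsComp G univ D}) (e : G.edgeSet), e ∈ ed G D.1 →
      gs e ∈ D.1 ∧ gt e ∈ D.1 := by
    intro D e he
    rcases mem_ed.1 he with h | h
    · exact ⟨h, D.2.2.2 _ h _ (mem_univ _) (adj_gs_gt e)⟩
    · exact ⟨D.2.2.2 _ h _ (mem_univ _) (adj_gs_gt e).symm, h⟩
  have huniq : ∀ (D D' : {D : Finset V // IsComp G univ D}) (e : G.edgeSet), e ∈ ed G D.1 →
      e ∈ ed G D'.1 → D = D' := fun D D' e h h' =>
    hdisj D D' (gs e) (hends D e h).1 (hends D' e h').1
  have hex : ∀ e : G.edgeSet, ∃ D : {D : Finset V // IsComp G univ D}, e ∈ ed G D.1 := by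
    intro e
    obtain ⟨D, hD, hv⟩ := exists_comp (G := G) (mem_univ (gs e))
    exact ⟨⟨D, hD⟩, mem_ed.2 (Or.inl hv)⟩
  let _ : Fintype {D : Finset V // IsComp G univ D} := Fintype.ofFinite _
  let _ : ∀ D : {D : Finset V // IsComp G univ D}, Fintype (I D) := hI
  refine ⟨Σ D, I D, inferInstance, fun i => c i.1 i.2, ?_, ?_, ?_⟩
  · intro i
    exact ⟨fun e he => absurd (mem_univ e) he, (mem_cyc.1 (hc i.1 i.2)).2⟩
  · -- generation
    intro z hz
    have hz2 := (mem_cyc.1 hz).2
    let r : {D : Finset V // IsComp G univ D} → G.edgeSet → ZMod 2 :=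
      fun D e => if e ∈ ed G D.1 then z e else 0
    have hr : ∀ D, r D ∈ cyc (gs (G := G)) gt (ed G D.1) := by
      intro D
      refine ⟨fun e he => if_neg he, fun v => ?_⟩
      by_cases hv : v ∈ D.1
      · rw [← hz2 v]
        refine sum_congr rfl fun e _ => ?_
        by_cases he : e ∈ ed G D.1
        · have h5 : r D e = z e := if_pos he
          rw [h5]
        · have h6 : inc (gs (G := G)) gt v e = 0 := by
            unfold inc
            rw [if_neg, if_neg, add_zero]
            · intro h
              exact he (mem_ed.2 (Or.inr (h ▸ hv)))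
            · intro h
              exact he (mem_ed.2 (Or.inl (h ▸ hv)))
          rw [h6, mul_zero, mul_zero]
      · refine sum_eq_zero fun e _ => ?_
        by_cases he : e ∈ ed G D.1
        · have h6 : inc (gs (G := G)) gt v e = 0 := by
            unfold inc
            rw [if_neg, if_neg, add_zero]
            · intro h
              exact hv (h ▸ (hends D e he).2)
            · intro h
              exact hv (h ▸ (hends D e he).1)
          rw [h6, mul_zero]
        · have h5 : r D e = 0 := if_neg he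
          rw [h5, zero_mul]
    have hsum : z = ∑ D, r D := by
      ext e
      rw [Finset.sum_apply]
      obtain ⟨D, hD⟩ := hex e
      rw [Finset.sum_eq_single D]
      · exact (if_pos hD).symm
      · intro D' _ hne
        refine if_neg fun h => hne (huniq D' D e h hD)
      · intro h
        exact absurd (mem_univ D) h
    rw [hsum]
    refine Submodule.sum_mem _ fun D _ => ?_
    refine Submodule.span_mono ?_ (hspan D (hr D))
    rintro _ ⟨i, rfl⟩
    exact ⟨⟨D, i⟩, rfl⟩
  · intro e
    obtain ⟨D, hD⟩ := hex e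
    refine le_trans ?_ (hload D e)
    have hD' : ∀ i : {i : Σ D, I D // c i.1 i.2 e ≠ 0}, i.1.1 = D := by
      rintro ⟨⟨D', i⟩, hi⟩
      by_contra hne
      apply hi
      refine (mem_cyc.1 (hc D' i)).1 e fun h => hne (huniq D' D e h hD)
    refine Nat.card_le_card_of_injective (β := {i // c D i e ≠ 0})
      (fun i => ⟨(hD' i) ▸ i.1.2, ?_⟩) ?_
    · rcases i with ⟨⟨D', i⟩, hi⟩
      have h := hD' ⟨⟨D', i⟩, hi⟩
      simp only at h
      subst h
      exact hi
    · rintro ⟨⟨D', i⟩, hi⟩ ⟨⟨D'', j⟩, hj⟩ hij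
      have h := hD' ⟨⟨D', i⟩, hi⟩
      have h' := hD' ⟨⟨D'', j⟩, hj⟩
      simp only at h h'
      subst h
      subst h'
      have h8 := congrArg Subtype.val hij
      simp only at h8
      subst h8
      rfl

end LW
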